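import Pool.Agent.H316.EM.Stm2
import Mathlib

set_option autoImplicit false

namespace Pool.Agent.H814

open Pool.Agent.H316.EM

/-! ### `FB` is a unique factorization domain of Krull dimension at most two -/

abbrev F2 := ZMod 2
abbrev LL := LaurentPolynomial (LaurentPolynomial F2)

noncomputable def eFB : FB ≃+* LL :=
  (AddMonoidAlgebra.toMultiplicative F2 (ℤ × ℤ)).symm.trans AddMonoidAlgebra.curryRingEquiv

theorem laurent_ufd (R : Type) [CommRing R] [IsDomain R] [UniqueFactorizationMonoid R] :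
    UniqueFactorizationMonoid (LaurentPolynomial R) :=
  UniqueFactorizationMonoid.of_isLocalization
    (Submonoid.powers (Polynomial.X : Polynomial R)) (LaurentPolynomial R)

instance ufdFB : UniqueFactorizationMonoid FB := by
  have := laurent_ufd F2
  have := laurent_ufd (LaurentPolynomial F2)
  exact (eFB.symm.toMulEquiv).uniqueFactorizationMonoid inferInstance

theorem dim_loc (R S : Type) [CommRing R] [CommRing S] [Algebra R S] (M : Submonoid R)
    [IsLocalization M S] : ringKrullDim S ≤ ringKrullDim R := by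
  refine Order.krullDim_le_of_strictMono (PrimeSpectrum.comap (algebraMap R S)) ?_
  refine Monotone.strictMono_of_injective ?_ (PrimeSpectrum.localization_comap_injective S M)
  intro a b h
  exact Ideal.comap_mono h

theorem laurent_noeth (R : Type) [CommRing R] [IsNoetherianRing R] :
    IsNoetherianRing (LaurentPolynomial R) :=
  IsLocalization.isNoetherianRing
    (Submonoid.powers (Polynomial.X : Polynomial R)) (LaurentPolynomial R) inferInstance

theorem laurent_dim (R : Type) [CommRing R] [IsNoetherianRing R] :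
    ringKrullDim (LaurentPolynomial R) ≤ ringKrullDim R + 1 := by
  rw [← Polynomial.ringKrullDim_of_isNoetherianRing]
  exact dim_loc (Polynomial R) (LaurentPolynomial R) (Submonoid.powers Polynomial.X)

instance noethFB : IsNoetherianRing FB := by
  have := laurent_noeth F2
  have := laurent_noeth (LaurentPolynomial F2)
  exact isNoetherianRing_of_ringEquiv _ eFB.symm

theorem dimFB : ringKrullDim FB ≤ 2 := by
  have := laurent_noeth F2
  have h1 := laurent_dim F2
  have h2 := laurent_dim (LaurentPolynomial F2)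
  rw [ringKrullDim_eq_zero_of_field] at h1
  rw [ringKrullDim_eq_of_ringEquiv eFB]
  calc ringKrullDim LL ≤ ringKrullDim (LaurentPolynomial F2) + 1 := h2
    _ ≤ (0 + 1) + 1 := by gcongr
    _ = 2 := by norm_num

/-! ### common factors -/

theorem exists_common (J : Ideal FB) (hJ : J ≠ ⊥) (hinf : ¬ Finite (FB ⧸ J)) :
    ∃ π : FB, Prime π ∧ ∀ x ∈ J, π ∣ x := by
  by_contra hcon
  apply hinf
  have hdim : Ring.KrullDimLE 0 (FB ⧸ J) := by
    rw [Ring.krullDimLE_zero_iff]
    intro P hP
    have hq : (P.comap (Ideal.Quotient.mk J)).IsPrime := Ideal.comap_isPrime _ _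
    have hJq : J ≤ P.comap (Ideal.Quotient.mk J) := by
      intro x hx
      rw [Ideal.mem_comap, Ideal.Quotient.eq_zero_iff_mem.2 hx]
      exact P.zero_mem
    by_contra hmax
    have hqmax : ¬ (P.comap (Ideal.Quotient.mk J)).IsMaximal := by
      intro h
      apply hmax
      have := Ideal.map_eq_top_or_isMaximal_of_surjective (Ideal.Quotient.mk J)
        Ideal.Quotient.mk_surjective h
      rw [Ideal.map_comap_of_surjective _ Ideal.Quotient.mk_surjective] at this
      exact this.resolve_left hP.ne_top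
    set q := P.comap (Ideal.Quotient.mk J) with hqdef
    have hqne : q ≠ ⊥ := fun h => hJ (by rw [eq_bot_iff, ← h]; exact hJq)
    obtain ⟨π, hπq, hπ⟩ := hq.exists_mem_prime_of_ne_bot hqne
    obtain ⟨m, hm, hqm⟩ := Ideal.exists_le_maximal q hq.ne_top
    have hπP : (Ideal.span {π}).IsPrime := (Ideal.span_singleton_prime hπ.ne_zero).2 hπ
    have hle : Ideal.span {π} ≤ q := (Ideal.span_singleton_le_iff_mem _).2 hπq
    by_cases hEq : Ideal.span {π} = q
    · exact hcon ⟨π, hπ, fun x hx => Ideal.mem_span_singleton.1 (hEq ▸ hJq hx)⟩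
    · have h01 : (⊥ : Ideal FB) < Ideal.span {π} := by
        rw [bot_lt_iff_ne_bot, Ne, Ideal.span_singleton_eq_bot]
        exact hπ.ne_zero
      have h12 : Ideal.span {π} < q := lt_of_le_of_ne hle hEq
      have h23 : q < m := lt_of_le_of_ne hqm (fun h => hqmax (h ▸ hm))
      let c : LTSeries (PrimeSpectrum FB) :=
        { length := 3
          toFun := ![⟨⊥, Ideal.isPrime_bot⟩, ⟨Ideal.span {π}, hπP⟩, ⟨q, hq⟩, ⟨m, hm.isPrime⟩]
          step := by
            intro i
            fin_cases i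
            · exact h01
            · exact h12
            · exact h23 }
      have h3 := Order.LTSeries.length_le_krullDim c
      have h4 := h3.trans dimFB
      have h5 : ((3 : ℕ) : WithBot ℕ∞) ≤ 2 := h4
      have h6 : ((3 : ℕ) : WithBot ℕ∞) ≤ ((2 : ℕ) : WithBot ℕ∞) := h5
      have h7 : (3 : ℕ) ≤ 2 := by exact_mod_cast h6
      omega
  have hfin : Module.Finite F2 (FB ⧸ J) := (Module.finite_iff_krullDimLE_zero F2 (FB ⧸ J)).2 hdim
  exact Module.finite_of_finite F2

/-! ### widths in the contracting direction -/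

/-- the conjugate golden ratio -/
noncomputable abbrev gc : ℝ := Real.goldenConj

/-- the linear functional `(x, y) ↦ x + gc * y`, an eigenvector of the Fibonacci automorphism -/
noncomputable def xi (b : B) : ℝ := (b.toAdd.1 : ℝ) + gc * (b.toAdd.2 : ℝ)

theorem xi_mul (a b : B) : xi (a * b) = xi a + xi b := by
  simp only [xi, toAdd_mul, Prod.fst_add, Prod.snd_add, Int.cast_add]
  ring

theorem xi_inj {a b : B} (h : xi a = xi b) : a = b := by
  have h1 : (((a.toAdd.1 - b.toAdd.1 : ℤ) : ℝ)) = gc * ((b.toAdd.2 - a.toAdd.2 : ℤ) : ℝ) := by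
    simp only [xi] at h
    push_cast
    linarith
  by_cases h2 : b.toAdd.2 - a.toAdd.2 = 0
  · rw [h2] at h1
    simp only [Int.cast_zero, mul_zero, Int.cast_eq_zero] at h1
    have : a.toAdd = b.toAdd := Prod.ext (by omega) (by omega)
    exact Multiplicative.toAdd.injective this
  · exfalso
    apply Real.goldenConj_irrational
    refine ⟨((a.toAdd.1 - b.toAdd.1 : ℤ) : ℚ) / ((b.toAdd.2 - a.toAdd.2 : ℤ) : ℚ), ?_⟩
    have h3 : (((b.toAdd.2 - a.toAdd.2 : ℤ)) : ℝ) ≠ 0 := by exact_mod_cast h2
    push_cast at h1 h3 ⊢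
    rw [div_eq_iff h3]
    exact h1

theorem xi_th (b : B) : xi (th b) = gc * xi b := by
  have h1 : (th b).toAdd = (b.toAdd.2, b.toAdd.1 + b.toAdd.2) := rfl
  simp only [xi, h1, Int.cast_add]
  have h2 : gc ^ 2 = gc + 1 := Real.goldenConj_sq
  linear_combination (- (b.toAdd.2 : ℝ)) * h2

theorem xi_thpow (k : ℕ) (b : B) : xi ((th ^ k) b) = gc ^ k * xi b := by
  induction k with
  | zero => simp
  | succ n ih =>
    rw [pow_succ', MulAut.mul_apply, xi_th, ih]
    ring

/-- `ξ`-width at most `c` -/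
def WB (f : FB) (c : ℝ) : Prop :=
  ∀ a ∈ f.coeff.support, ∀ b ∈ f.coeff.support, |xi a - xi b| ≤ c

theorem exists_WB (f : FB) : ∃ c, WB f c := by
  obtain ⟨c, hc⟩ := ((f.coeff.support ×ˢ f.coeff.support).image
    (fun p => |xi p.1 - xi p.2|)).bddAbove
  refine ⟨c, fun a ha b hb => hc ?_⟩
  rw [Finset.mem_coe, Finset.mem_image]
  exact ⟨(a, b), Finset.mem_product.2 ⟨ha, hb⟩, rfl⟩

theorem supp_rF (φ : MulAut B) (f : FB) {a : B} (ha : a ∈ (rF φ f).coeff.support) :
    ∃ b ∈ f.coeff.support, φ b = a := by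
  have h : (rF φ f).coeff.support = f.coeff.support.map φ :=
    MonoidAlgebra.domCongr_support (R := ZMod 2) (A := ZMod 2) φ f
  rw [h, Finset.mem_map] at ha
  exact ha

theorem WB_rF (k : ℕ) (f : FB) (c : ℝ) (h : WB f c) :
    WB (rF (th ^ k) f) (|gc| ^ k * c) := by
  intro a ha b hb
  obtain ⟨a', ha', rfl⟩ := supp_rF _ _ ha
  obtain ⟨b', hb', rfl⟩ := supp_rF _ _ hb
  rw [xi_thpow, xi_thpow, ← mul_sub, abs_mul, abs_pow]
  exact mul_le_mul_of_nonneg_left (h a' ha' b' hb') (by positivity)

theorem WB_iter (k : ℕ) (f : FB) (c : ℝ) (h : WB f c) (n : ℕ) :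
    WB ((fun x => rF (th ^ k) x)^[n] f) ((|gc| ^ k) ^ n * c) := by
  induction n with
  | zero => simpa using h
  | succ n ih =>
    rw [Function.iterate_succ', Function.comp_apply]
    have := WB_rF k _ _ ih
    rw [← mul_assoc, ← pow_succ'] at this
    exact this

theorem supp_nonempty {f : FB} (hf : f ≠ 0) : f.coeff.support.Nonempty := by
  rw [Finset.nonempty_iff_ne_empty, Ne, Finsupp.support_eq_empty]
  intro h
  exact hf (MonoidAlgebra.coeff_injective h)

theorem WB_dvd {f g : FB} (c : ℝ) (hfg : f ∣ g) (hg : g ≠ 0) (h : WB g c) : WB f c := by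
  obtain ⟨k, rfl⟩ := hfg
  have hf : f ≠ 0 := left_ne_zero_of_mul hg
  have hk : k ≠ 0 := right_ne_zero_of_mul hg
  obtain ⟨a, ha, hamax⟩ := Finset.exists_max_image _ xi (supp_nonempty hf)
  obtain ⟨b, hb, hbmin⟩ := Finset.exists_min_image _ xi (supp_nonempty hf)
  obtain ⟨a', ha', hamax'⟩ := Finset.exists_max_image _ xi (supp_nonempty hk)
  obtain ⟨b', hb', hbmin'⟩ := Finset.exists_min_image _ xi (supp_nonempty hk)
  have h1 : a * a' ∈ (f * k).coeff.support := by
    rw [Finsupp.mem_support_iff, MonoidAlgebra.coeff_mul_mul_of_uniqueMul]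
    · exact mul_ne_zero (Finsupp.mem_support_iff.1 ha) (Finsupp.mem_support_iff.1 ha')
    · intro x y hx hy hxy
      have e := congrArg xi hxy
      rw [xi_mul, xi_mul] at e
      have e1 := hamax x hx
      have e2 := hamax' y hy
      exact ⟨xi_inj (by linarith), xi_inj (by linarith)⟩
  have h2 : b * b' ∈ (f * k).coeff.support := by
    rw [Finsupp.mem_support_iff, MonoidAlgebra.coeff_mul_mul_of_uniqueMul]
    · exact mul_ne_zero (Finsupp.mem_support_iff.1 hb) (Finsupp.mem_support_iff.1 hb')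
    · intro x y hx hy hxy
      have e := congrArg xi hxy
      rw [xi_mul, xi_mul] at e
      have e1 := hbmin x hx
      have e2 := hbmin' y hy
      exact ⟨xi_inj (by linarith), xi_inj (by linarith)⟩
  have h3 := h _ h1 _ h2
  rw [xi_mul, xi_mul] at h3
  have h4 := hbmin' _ ha'
  have h5 := (abs_le.1 h3).2
  intro x hx y hy
  have e1 := hamax x hx
  have e2 := hamax y hy
  have e3 := hbmin x hx
  have e4 := hbmin y hy
  rw [abs_le]
  constructor <;> linarith

theorem unit_of_dvd_all (k : ℕ) (hk : 0 < k) (f π : FB) (hf : f ≠ 0)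
    (h : ∀ n : ℕ, π ∣ (fun x => rF (th ^ k) x)^[n] f) : IsUnit π := by
  have hπ : π ≠ 0 := by
    rintro rfl
    exact hf (zero_dvd_iff.1 (h 0))
  obtain ⟨c, hc⟩ := exists_WB f
  have hne : ∀ n : ℕ, (fun x => rF (th ^ k) x)^[n] f ≠ 0 := by
    intro n
    induction n with
    | zero => exact hf
    | succ n ih =>
      rw [Function.iterate_succ', Function.comp_apply]
      exact fun h0 => ih ((map_eq_zero_iff _ (rF (th ^ k)).injective).1 h0)
  have h1 : ∀ n : ℕ, WB π ((|gc| ^ k) ^ n * c) := fun n =>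
    WB_dvd _ (h n) (hne n) (WB_iter k f c hc n)
  have hlt : |gc| < 1 := by
    rw [abs_lt]
    exact ⟨Real.neg_one_lt_goldenConj, Real.goldenConj_neg.trans one_pos⟩
  have hlt' : |gc| ^ k < 1 := pow_lt_one₀ (abs_nonneg _) hlt hk.ne'
  have h2 : ∀ a ∈ π.coeff.support, ∀ b ∈ π.coeff.support, a = b := by
    intro a ha b hb
    apply xi_inj
    have h3 : Filter.Tendsto (fun n : ℕ => (|gc| ^ k) ^ n * c) Filter.atTop (nhds (0 * c)) :=
      (tendsto_pow_atTop_nhds_zero_of_lt_one (by positivity) hlt').mul_const c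
    have h4 : |xi a - xi b| ≤ 0 * c := ge_of_tendsto' h3 (fun n => h1 n a ha b hb)
    rw [zero_mul] at h4
    have := abs_nonpos_iff.1 h4
    linarith
  obtain ⟨a, ha⟩ := supp_nonempty hπ
  have h3 : π = MonoidAlgebra.single a (π.coeff a) := by
    apply MonoidAlgebra.coeff_injective
    ext b
    rw [MonoidAlgebra.coeff_single]
    by_cases hab : a = b
    · subst hab
      simp
    · rw [Finsupp.single_eq_of_ne (Ne.symm hab)]
      by_contra hb
      exact hab (h2 a ha b (Finsupp.mem_support_iff.2 hb))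
  have h4 : π.coeff a ≠ 0 := Finsupp.mem_support_iff.1 ha
  refine IsUnit.of_mul_eq_one (MonoidAlgebra.single a⁻¹ (π.coeff a)⁻¹) ?_
  conv_lhs => rw [h3]
  rw [MonoidAlgebra.single_mul_single, mul_inv_cancel, MonoidAlgebra.coeff_single,
    Finsupp.single_eq_same, mul_inv_cancel₀ h4, MonoidAlgebra.one_def]

theorem em_ideal : Pool.Agent.H316.EM.S_IDEAL := by
  intro k hk J hst hJ
  by_contra hinf
  obtain ⟨π, hπ, hdvd⟩ := exists_common J hJ hinf
  obtain ⟨f, hfJ, hf⟩ := Submodule.exists_mem_ne_zero_of_ne_bot hJ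
  apply hπ.not_isUnit
  refine unit_of_dvd_all k hk f π hf (fun n => hdvd _ ?_)
  induction n with
  | zero => exact hfJ
  | succ n ih =>
    rw [Function.iterate_succ', Function.comp_apply]
    exact hst _ ih

end Pool.Agent.H814
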